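import Pool.Agent.Lib_helper44.G5.Defs

/-! G5 block SMO: smallness is preserved by `opU`. -/

namespace Pool.Agent.G5

open Complex MeasureTheory Filter Topology

open Pool.Agent.G4 (par Ix ev pairs RSB IsKer D hatw smo)

variable {m : ℕ}

theorem SMO_mem {N Q : ℕ} {x : Ix} (h : x ∈ pairs N Q) : x.q.Coprime N ∧ x.2.IsPrimitive := by
  classical
  unfold pairs at h
  rw [Finset.mem_sigma, Finset.mem_filter, Finset.mem_filter] at h
  exact ⟨h.1.2, h.2.2⟩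

theorem SMO_int {N : ℕ} {E : Fm} (hE : Fam N E) {x : Ix} (hx : x.q.Coprime N)
    (hp : x.2.IsPrimitive) (c : ℝ) :
    Integrable (fun u : ℝ => ‖E x (u - c)‖ ^ 2 / (1 + u ^ 2)) := by
  obtain ⟨C, hC⟩ := hE.dec x hx hp 0
  have hb : ∀ u, ‖E x u‖ ≤ C := fun u => by simpa using hC u
  have hcont := hE.cont x
  have h1 : Integrable (fun u : ℝ => C ^ 2 * (1 + u ^ 2)⁻¹) :=
    integrable_inv_one_add_sq.const_mul _
  refine Integrable.mono' h1 ?_ ?_
  · apply Continuous.aestronglyMeasurable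
    refine Continuous.div (by fun_prop) (by fun_prop) ?_
    intro u
    positivity
  · filter_upwards with u
    have h2 : 0 < 1 + u ^ 2 := by positivity
    rw [Real.norm_of_nonneg (by positivity), div_eq_mul_inv]
    have h3 : ‖E x (u - c)‖ ^ 2 ≤ C ^ 2 := by
      have := hb (u - c)
      gcongr
    gcongr

theorem smallR_opU_pr {S : Sys m} {E : Fm} (hE : Fam S.N E) (h : SmallR S E) {a : ℕ × ℂ}
    (ha : 1 ≤ a.1) : SmallR S (opU a E) := by
  intro s hs ε hε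
  have haR : (1 : ℝ) ≤ a.1 := by exact_mod_cast ha
  have hlog : 0 ≤ Real.log a.1 := Real.log_nonneg haR
  set c2 : ℝ := ‖a.2‖ ^ 2 with hc2
  have hc20 : 0 ≤ c2 := by positivity
  set e : ℝ := ε / (2 * (1 + c2)) with he
  have he0 : 0 < e := by positivity
  obtain ⟨Q₁, h1⟩ := h s hs e he0
  obtain ⟨Q₂, h2⟩ := h (s + Real.log a.1) (by linarith) e he0
  refine ⟨max Q₁ Q₂, fun Q hQ => ?_⟩
  have k1 := h1 Q ((le_max_left _ _).trans hQ)
  have k2 := h2 Q ((le_max_right _ _).trans hQ)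
  have hpt : ∀ (x : Ix) (v : ℝ), ‖opU a E x v‖ ^ 2 ≤ 2 * ‖E x v‖ ^ 2 +
      2 * c2 * ‖E x (v - Real.log a.1)‖ ^ 2 := by
    intro x v
    have e1 : ‖starRingEnd ℂ (a.2 * ev x a.1) * (((√(a.1 : ℝ))⁻¹ : ℝ) : ℂ) *
        E x (v - Real.log a.1)‖ ≤ ‖a.2‖ * ‖E x (v - Real.log a.1)‖ := by
      rw [norm_mul, norm_mul, RCLike.norm_conj, norm_mul, Complex.norm_real,
        Real.norm_of_nonneg (by positivity)]
      have e2 : ‖ev x a.1‖ ≤ 1 := by
        unfold ev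
        exact DirichletCharacter.norm_le_one _ _
      have e3 : (√(a.1 : ℝ))⁻¹ ≤ 1 := by
        apply inv_le_one_of_one_le₀
        rw [Real.one_le_sqrt]
        exact haR
      calc ‖a.2‖ * ‖ev x a.1‖ * (√(a.1 : ℝ))⁻¹ * ‖E x (v - Real.log a.1)‖
          ≤ ‖a.2‖ * 1 * 1 * ‖E x (v - Real.log a.1)‖ := by gcongr
        _ = _ := by ring
    have e4 : ‖opU a E x v‖ ≤ ‖E x v‖ + ‖a.2‖ * ‖E x (v - Real.log a.1)‖ := by
      unfold opU
      exact (norm_sub_le _ _).trans (add_le_add le_rfl e1)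
    calc ‖opU a E x v‖ ^ 2 ≤ (‖E x v‖ + ‖a.2‖ * ‖E x (v - Real.log a.1)‖) ^ 2 := by gcongr
      _ ≤ 2 * ‖E x v‖ ^ 2 + 2 * (‖a.2‖ * ‖E x (v - Real.log a.1)‖) ^ 2 := by
          nlinarith [sq_nonneg (‖E x v‖ - ‖a.2‖ * ‖E x (v - Real.log a.1)‖)]
      _ = _ := by rw [hc2]; ring
  have hint : ∀ x ∈ pairs S.N Q, ∫ u in Set.Ioi (0 : ℝ),
      ‖opU a E x (u - ell S x - s)‖ ^ 2 / (1 + u ^ 2) ≤
      2 * (∫ u in Set.Ioi (0 : ℝ), ‖E x (u - ell S x - s)‖ ^ 2 / (1 + u ^ 2)) +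
      2 * c2 * ∫ u in Set.Ioi (0 : ℝ), ‖E x (u - ell S x - (s + Real.log a.1))‖ ^ 2 / (1 + u ^ 2) := by
    intro x hx
    obtain ⟨m1, m2⟩ := SMO_mem hx
    have i1 : IntegrableOn (fun u : ℝ => ‖E x (u - ell S x - s)‖ ^ 2 / (1 + u ^ 2)) (Set.Ioi 0) := by
      have := (SMO_int hE m1 m2 (ell S x + s)).integrableOn (s := Set.Ioi 0)
      refine this.congr_fun ?_ measurableSet_Ioi
      intro u _
      simp only
      rw [sub_sub]
    have i2 : IntegrableOn (fun u : ℝ => ‖E x (u - ell S x - (s + Real.log a.1))‖ ^ 2 /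
        (1 + u ^ 2)) (Set.Ioi 0) := by
      have := (SMO_int hE m1 m2 (ell S x + (s + Real.log a.1))).integrableOn (s := Set.Ioi 0)
      refine this.congr_fun ?_ measurableSet_Ioi
      intro u _
      simp only
      rw [sub_sub]
    rw [← integral_const_mul, ← integral_const_mul, ← integral_add (i1.const_mul 2)
      (i2.const_mul (2 * c2))]
    refine integral_mono_of_nonneg ?_ ((i1.const_mul 2).add (i2.const_mul (2 * c2))) ?_
    · filter_upwards with u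
      show (0 : ℝ) ≤ ‖opU a E x (u - ell S x - s)‖ ^ 2 / (1 + u ^ 2)
      positivity
    · filter_upwards with u
      have h3 := hpt x (u - ell S x - s)
      have h4 : u - ell S x - s - Real.log a.1 = u - ell S x - (s + Real.log a.1) := by ring
      rw [h4] at h3
      have h5 : 0 < 1 + u ^ 2 := by positivity
      show ‖opU a E x (u - ell S x - s)‖ ^ 2 / (1 + u ^ 2) ≤
        2 * (‖E x (u - ell S x - s)‖ ^ 2 / (1 + u ^ 2)) +
        2 * c2 * (‖E x (u - ell S x - (s + Real.log a.1))‖ ^ 2 / (1 + u ^ 2))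
      rw [div_le_iff₀ h5]
      calc ‖opU a E x (u - ell S x - s)‖ ^ 2 ≤ _ := h3
        _ = _ := by field_simp
  calc ∑ x ∈ pairs S.N Q, ∫ u in Set.Ioi (0 : ℝ), ‖opU a E x (u - ell S x - s)‖ ^ 2 / (1 + u ^ 2)
      ≤ ∑ x ∈ pairs S.N Q, (2 * (∫ u in Set.Ioi (0 : ℝ), ‖E x (u - ell S x - s)‖ ^ 2 / (1 + u ^ 2)) +
        2 * c2 * ∫ u in Set.Ioi (0 : ℝ), ‖E x (u - ell S x - (s + Real.log a.1))‖ ^ 2 /
          (1 + u ^ 2)) := Finset.sum_le_sum hint
    _ = 2 * (∑ x ∈ pairs S.N Q, ∫ u in Set.Ioi (0 : ℝ), ‖E x (u - ell S x - s)‖ ^ 2 / (1 + u ^ 2)) +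
        2 * c2 * ∑ x ∈ pairs S.N Q, ∫ u in Set.Ioi (0 : ℝ),
          ‖E x (u - ell S x - (s + Real.log a.1))‖ ^ 2 / (1 + u ^ 2) := by
        rw [Finset.sum_add_distrib, Finset.mul_sum, Finset.mul_sum]
    _ ≤ 2 * (e * Q ^ 2) + 2 * c2 * (e * Q ^ 2) := by gcongr
    _ = ε * Q ^ 2 := by
        rw [he]
        field_simp

end Pool.Agent.G5
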