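import Pool.Agent.Lib_helper44.G5.Defs
import Pool.Agent.Lib_helper85.G5.EVP

/-! G5 block EUL: smooth sums are Euler products. -/

namespace Pool.Agent.G5

open Complex MeasureTheory Filter Topology

open Pool.Agent.G4 (par Ix ev pairs RSB IsKer D hatw smo)

variable {m : ℕ}

theorem EUL_smo_iff (P n : ℕ) : smo P n ↔ n ∈ Nat.smoothNumbers (P + 1) := by
  rw [Nat.mem_smoothNumbers']
  unfold smo
  constructor
  · intro h
    exact fun p hp hd => Nat.lt_succ_of_le (h p hp hd)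
  · intro h p hp hd
    exact Nat.le_of_lt_succ (h p hp hd)

theorem EUL_ev_mul (x : Ix) (a b : ℕ) : ev x (a * b) = ev x a * ev x b := by
  unfold ev; rw [Nat.cast_mul, map_mul]

theorem EUL_ev_one (x : Ix) : ev x 1 = 1 := by unfold ev; simp

theorem EUL_ev_pow (x : Ix) (a n : ℕ) : ev x (a ^ n) = ev x a ^ n := by
  unfold ev; rw [Nat.cast_pow, map_pow]

theorem EUL_ev_le (x : Ix) (a : ℕ) : ‖ev x a‖ ≤ 1 := by
  unfold ev; exact DirichletCharacter.norm_le_one _ _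

theorem EUL_hasSum_ind {R : Type*} [AddCommMonoid R] [TopologicalSpace R] (P : ℕ) (f : ℕ → R)
    (c : R) (h : HasSum (fun n : (Nat.smoothNumbers (P + 1)) => f n) c) :
    HasSum (fun n : ℕ => open Classical in if smo P n then f n else 0) c := by
  have h2 := hasSum_subtype_iff_indicator.1 h
  convert h2 using 1
  funext n
  by_cases hn : smo P n
  · rw [if_pos hn, Set.indicator_of_mem ((EUL_smo_iff P n).1 hn)]
  · rw [if_neg hn, Set.indicator_of_notMem (fun h => hn ((EUL_smo_iff P n).2 h))]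

theorem EUL_abs (S : Sys m) {p : ℕ} (hp : p.Prime) {σ : ℝ} (hσ : 1 / 2 < σ) :
    Summable fun n : ℕ => ‖S.a (p ^ n)‖ * ((p : ℝ) ^ (-σ)) ^ n := by
  have hp0 : (0 : ℝ) < p := by exact_mod_cast hp.pos
  have hp1 : (1 : ℝ) < p := by exact_mod_cast hp.one_lt
  have h := (euler_hasSum_pr S hp (z := (((p : ℝ) ^ (-σ) : ℝ) : ℂ)) (by
    rw [Complex.norm_real, Real.norm_of_nonneg (by positivity), Real.sqrt_eq_rpow,
      ← Real.rpow_neg hp0.le]
    exact Real.rpow_lt_rpow_of_exponent_lt hp1 (by linarith))).2.summable.norm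
  refine h.congr ?_
  intro n
  rw [norm_mul, norm_pow, Complex.norm_real, Real.norm_of_nonneg (by positivity)]

theorem EUL_pow {p : ℕ} (hp : p.Prime) (σ : ℝ) (n : ℕ) :
    ((p : ℝ) ^ (-σ)) ^ n = ((p ^ n : ℕ) : ℝ) ^ (-σ) := by
  have hp0 : (0 : ℝ) < p := by exact_mod_cast hp.pos
  rw [Nat.cast_pow, ← Real.rpow_natCast, ← Real.rpow_natCast, ← Real.rpow_mul hp0.le,
    ← Real.rpow_mul hp0.le, mul_comm]

theorem EUL_real (S : Sys m) (P : ℕ) {σ : ℝ} (hσ : 1 / 2 < σ) :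
    (Summable fun n : ℕ => open Classical in
      if smo P n then ‖S.a n‖ * (n : ℝ) ^ (-σ) else 0) := by
  let f : ℕ → ℝ := fun n => ‖S.a n‖ * (n : ℝ) ^ (-σ)
  have h1 : f 1 = 1 := by simp [f, S.a_one]
  have h2 : ∀ {k n : ℕ}, k.Coprime n → f (k * n) = f k * f n := by
    intro k n hkn
    change ‖S.a (k * n)‖ * ((k * n : ℕ) : ℝ) ^ (-σ) =
      (‖S.a k‖ * (k : ℝ) ^ (-σ)) * (‖S.a n‖ * (n : ℝ) ^ (-σ))
    rw [S.a_mul k n hkn, norm_mul, Nat.cast_mul,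
      Real.mul_rpow (Nat.cast_nonneg _) (Nat.cast_nonneg _)]
    ring
  have h3 : ∀ {p : ℕ}, p.Prime → Summable (fun n : ℕ => ‖f (p ^ n)‖) := by
    intro p hp
    refine (EUL_abs S hp hσ).congr ?_
    intro n
    change ‖S.a (p ^ n)‖ * ((p : ℝ) ^ (-σ)) ^ n = ‖‖S.a (p ^ n)‖ * ((p ^ n : ℕ) : ℝ) ^ (-σ)‖
    rw [Real.norm_of_nonneg (by positivity), EUL_pow hp]
  have h := (EulerProduct.summable_and_hasSum_smoothNumbers_prod_primesBelow_tsum h1 h2 h3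
    (P + 1)).2
  exact (EUL_hasSum_ind P _ _ h).summable

theorem EUL_cplx (S : Sys m) (P : ℕ) (x : Ix) {s : ℂ} (hs : 1 / 2 < s.re) :
    HasSum (fun n : ℕ => open Classical in
      if smo P n then S.a n * ev x n * (n : ℂ) ^ (-s) else 0) (LP S P x s) := by
  let f : ℕ → ℂ := fun n => S.a n * ev x n * (n : ℂ) ^ (-s)
  have h1 : f 1 = 1 := by simp [f, S.a_one, EUL_ev_one]
  have h2 : ∀ {k n : ℕ}, k.Coprime n → f (k * n) = f k * f n := by
    intro k n hkn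
    change S.a (k * n) * ev x (k * n) * ((k * n : ℕ) : ℂ) ^ (-s) =
      (S.a k * ev x k * (k : ℂ) ^ (-s)) * (S.a n * ev x n * (n : ℂ) ^ (-s))
    rw [S.a_mul k n hkn, EUL_ev_mul, Nat.cast_mul, Complex.natCast_mul_natCast_cpow]
    ring
  have h3 : ∀ {p : ℕ}, p.Prime → Summable (fun n : ℕ => ‖f (p ^ n)‖) := by
    intro p hp
    refine Summable.of_nonneg_of_le (fun n => norm_nonneg _) ?_ (EUL_abs S hp hs)
    intro n
    change ‖S.a (p ^ n) * ev x (p ^ n) * ((p ^ n : ℕ) : ℂ) ^ (-s)‖ ≤ _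
    rw [norm_mul, norm_mul]
    have h1 : ‖ev x (p ^ n)‖ ≤ 1 := EUL_ev_le x _
    have h2 : ‖((p ^ n : ℕ) : ℂ) ^ (-s)‖ ≤ ((p : ℝ) ^ (-s.re)) ^ n := by
      rw [Complex.norm_natCast_cpow_of_pos (pow_pos hp.pos n), Complex.neg_re, EUL_pow hp]
    calc ‖S.a (p ^ n)‖ * ‖ev x (p ^ n)‖ * ‖((p ^ n : ℕ) : ℂ) ^ (-s)‖
        ≤ ‖S.a (p ^ n)‖ * 1 * ((p : ℝ) ^ (-s.re)) ^ n := by gcongr
      _ = _ := by ring
  have h := (EulerProduct.summable_and_hasSum_smoothNumbers_prod_primesBelow_tsum h1 h2 h3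
    (P + 1)).2
  have h5 := EUL_hasSum_ind P f _ h
  have h6 : LP S P x s = ∏ p ∈ (P + 1).primesBelow, ∑' n : ℕ, f (p ^ n) := by
    unfold LP
    apply Finset.prod_congr rfl
    intro p hp
    have hpp : p.Prime := Nat.prime_of_mem_primesBelow hp
    have hp0 : (0 : ℝ) < p := by exact_mod_cast hpp.pos
    have hp1 : (1 : ℝ) < p := by exact_mod_cast hpp.one_lt
    have hz : ‖ev x p * (p : ℂ) ^ (-s)‖ < (√(p : ℝ))⁻¹ := by
      rw [norm_mul]
      have h1 : ‖ev x p‖ ≤ 1 := EUL_ev_le x _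
      have h2 : ‖(p : ℂ) ^ (-s)‖ < (√(p : ℝ))⁻¹ := by
        rw [Complex.norm_natCast_cpow_of_pos hpp.pos, Complex.neg_re, Real.sqrt_eq_rpow,
          ← Real.rpow_neg hp0.le]
        exact Real.rpow_lt_rpow_of_exponent_lt hp1 (by linarith)
      calc ‖ev x p‖ * ‖(p : ℂ) ^ (-s)‖ ≤ 1 * ‖(p : ℂ) ^ (-s)‖ := by gcongr
        _ = ‖(p : ℂ) ^ (-s)‖ := one_mul _
        _ < _ := h2
    have h3 := (euler_hasSum_pr S hpp hz).2.tsum_eq
    rw [← h3]
    apply tsum_congr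
    intro n
    change S.a (p ^ n) * (ev x p * (p : ℂ) ^ (-s)) ^ n =
      S.a (p ^ n) * ev x (p ^ n) * ((p ^ n : ℕ) : ℂ) ^ (-s)
    rw [EUL_ev_pow, mul_pow, mul_assoc]
    congr 2
    rw [← Complex.cpow_nat_mul, Complex.natCast_cpow_natCast_mul]
    push_cast; rfl
  rw [h6]
  exact h5

/-- EUL: smooth sums are Euler products -/
theorem smooth_euler_pr (S : Sys m) (P : ℕ) (x : Ix) {s : ℂ} (hs : 1 / 2 < s.re) :
    (∀ σ : ℝ, 1 / 2 < σ → Summable fun n : ℕ => open Classical in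
      if smo P n then ‖S.a n‖ * (n : ℝ) ^ (-σ) else 0) ∧
    HasSum (fun n : ℕ => open Classical in
      if smo P n then S.a n * ev x n * (n : ℂ) ^ (-s) else 0) (LP S P x s) :=
  ⟨fun _ hσ => EUL_real S P hσ, EUL_cplx S P x hs⟩

end Pool.Agent.G5
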