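import Pool.Agent.Lib_helper44.G5.Defs
import Pool.Agent.Lib_helper72.G5.EUL

/-! G5 block SMD: transform of the smooth part. -/

namespace Pool.Agent.G5

open Complex MeasureTheory Filter Topology

open Pool.Agent.G4 (par Ix ev pairs RSB IsKer D hatw smo)

variable {m : ℕ}

/-- Integrability of a series of integrable functions. -/
theorem SMD_integrable_tsum {α J E : Type*} [MeasurableSpace α] {μ : Measure α} [Countable J]
    [NormedAddCommGroup E] [NormedSpace ℝ E] [CompleteSpace E]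
    {F : J → α → E} (hF : ∀ j, Integrable (F j) μ) (hs : Summable fun j => ∫ x, ‖F j x‖ ∂μ) :
    Integrable (fun x => ∑' j, F j x) μ := by
  have h1 : ∑' j, ∫⁻ x, ‖F j x‖ₑ ∂μ ≠ ⊤ := by
    have (j : J) : ∫⁻ x, ‖F j x‖ₑ ∂μ = ENNReal.ofReal (∫ x, ‖F j x‖ ∂μ) := by
      rw [ofReal_integral_norm_eq_lintegral_enorm (hF j)]
    simp_rw [this]
    exact hs.tsum_ofReal_ne_top
  have h2 : ∫⁻ x, ∑' j, ‖F j x‖ₑ ∂μ ≠ ⊤ := by
    rw [lintegral_tsum (fun j => (hF j).1.enorm)]
    exact h1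
  have h3 : ∀ᵐ x ∂μ, Summable (fun j => F j x) := by
    have := ae_lt_top' (AEMeasurable.ennreal_tsum (fun j => (hF j).1.enorm)) h2
    filter_upwards [this] with x hx
    have : Summable (fun j => ‖F j x‖) := by
      have h4 := ENNReal.tsum_coe_ne_top_iff_summable.1
        (show ∑' j, ((‖F j x‖₊ : NNReal) : ENNReal) ≠ ⊤ from hx.ne)
      exact NNReal.summable_coe.2 h4
    exact this.of_norm
  refine ⟨aestronglyMeasurable_of_tendsto_ae (atTop : Filter (Finset J))
    (f := fun s x => ∑ j ∈ s, F j x) (fun s => ?_) ?_, ?_⟩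
  · exact Finset.aestronglyMeasurable_fun_sum s (fun j _ => (hF j).1)
  · filter_upwards [h3] with x hx
    exact hx.hasSum
  · refine lt_of_le_of_lt (lintegral_mono (fun x => enorm_tsum_le_tsum_enorm)) h2.lt_top

theorem SMD_ker_int {κ : ℝ} {K : ℝ → ℂ} (hK : IsKer κ K) {z : ℂ} (hz : -κ < z.re) :
    Integrable (fun v : ℝ => K v * cexp (z * v)) := by
  have hcont : Continuous (fun v : ℝ => K v * cexp (z * v)) := by
    have := hK.cont
    fun_prop
  obtain ⟨C₁, h1⟩ := hK.le (z.re + 1) (by linarith)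
  obtain ⟨C₂, h2⟩ := hK.le ((z.re - κ) / 2) (by linarith)
  have hn : ∀ v : ℝ, ‖K v * cexp (z * v)‖ = ‖K v‖ * Real.exp (z.re * v) := by
    intro v
    rw [norm_mul, Complex.norm_exp]
    congr 2
    simp
  rw [← integrableOn_univ, ← Set.Iic_union_Ioi (a := (0 : ℝ))]
  apply IntegrableOn.union
  · have hI : IntegrableOn (fun v : ℝ => C₂ * Real.exp (((z.re + κ) / 2) * v)) (Set.Iic 0) :=
      (integrableOn_exp_mul_Iic (by linarith) 0).const_mul C₂
    refine Integrable.mono' hI hcont.aestronglyMeasurable ?_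
    filter_upwards with v
    rw [hn]
    calc ‖K v‖ * Real.exp (z.re * v) ≤ (C₂ * Real.exp (-((z.re - κ) / 2) * v)) *
          Real.exp (z.re * v) := by gcongr; exact h2 v
      _ = C₂ * Real.exp (((z.re + κ) / 2) * v) := by
          rw [mul_assoc, ← Real.exp_add]; congr 2; ring
  · have hI : IntegrableOn (fun v : ℝ => C₁ * Real.exp ((-1) * v)) (Set.Ioi 0) :=
      (integrableOn_exp_mul_Ioi (by norm_num) 0).const_mul C₁
    refine Integrable.mono' hI hcont.aestronglyMeasurable ?_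
    filter_upwards with v
    rw [hn]
    calc ‖K v‖ * Real.exp (z.re * v) ≤ (C₁ * Real.exp (-(z.re + 1) * v)) *
          Real.exp (z.re * v) := by gcongr; exact h1 v
      _ = C₁ * Real.exp ((-1) * v) := by
          rw [mul_assoc, ← Real.exp_add]; congr 2; ring

theorem SMD_smo_zero (P : ℕ) : ¬ smo P 0 := by
  intro h
  obtain ⟨p, hp, hpp⟩ := Nat.exists_infinite_primes (P + 1)
  have := h p hpp (dvd_zero p)
  omega

theorem SMD_exp_log {n : ℕ} (hn : n ≠ 0) (z : ℂ) : cexp (-(z * (Real.log n : ℝ))) = (n : ℂ) ^ (-z) := by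
  rw [Complex.cpow_def_of_ne_zero (by exact_mod_cast hn), ← Complex.natCast_log]
  congr 1; push_cast; ring

theorem SMD_sum (S : Sys m) (P : ℕ) {η : ℝ} (hη : 0 < η) : Summable fun n : ℕ =>
    ‖(open Classical in if smo P n then S.a n else 0)‖ * ((√(n : ℝ))⁻¹ * (n : ℝ) ^ (-η)) := by
  classical
  refine (EUL_real S P (σ := 1 / 2 + η) (by linarith)).congr ?_
  intro n
  by_cases hn : smo P n
  · rw [if_pos hn, if_pos hn]
    rcases Nat.eq_zero_or_pos n with h0 | h0
    · exact absurd (h0 ▸ hn) (SMD_smo_zero P)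
    · have hn0 : (0 : ℝ) < n := by exact_mod_cast h0
      rw [neg_add, Real.rpow_add hn0, Real.sqrt_eq_rpow, Real.rpow_neg hn0.le (1 / 2)]
  · rw [if_neg hn, if_neg hn]; simp

/-- SMD: bound for the smooth part -/
theorem smooth_bound_pr {S : Sys m} (k : Kers S) (P : ℕ) {η : ℝ} (hη : 0 < η) :
    ∃ C : ℝ, 0 ≤ C ∧ ∀ (y : Ix) (u : ℝ), ‖D (fun n => open Classical in if smo P n then S.a n else 0)
      (k.K (par y.2)) y u‖ ≤ C * Real.exp (-η * u) := by
  classical
  set b : ℕ → ℂ := fun n => if smo P n then S.a n else 0 with hb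
  have hb0 : b 0 = 0 := by simp only [hb]; rw [if_neg (SMD_smo_zero P)]
  have hsum : Summable fun n : ℕ => ‖b n‖ * ((√(n : ℝ))⁻¹ * (n : ℝ) ^ (-η)) := SMD_sum S P hη
  have hκ := k.κ_pos
  have hM : ∀ δ : Fin 2, ∃ C : ℝ, ∀ u : ℝ, ‖k.K δ u‖ ≤ C * Real.exp (-η * u) := by
    intro δ
    exact (k.isKer δ).le η (by linarith)
  choose C hC using hM
  have hC0 : ∀ δ, 0 ≤ C δ := fun δ => by
    have h := (norm_nonneg _).trans (hC δ 0)
    simpa using h
  have hC01 : 0 ≤ C 0 + C 1 := add_nonneg (hC0 0) (hC0 1)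
  refine ⟨(C 0 + C 1) * ∑' n : ℕ, ‖b n‖ * ((√(n : ℝ))⁻¹ * (n : ℝ) ^ (-η)),
    mul_nonneg hC01 (tsum_nonneg fun n => by positivity), ?_⟩
  intro y u
  have hCy : ∀ v, ‖k.K (par y.2) v‖ ≤ (C 0 + C 1) * Real.exp (-η * v) := by
    intro v
    have h1 := hC (par y.2) v
    have h2 : C (par y.2) ≤ C 0 + C 1 := by
      have h3 : par y.2 = 0 ∨ par y.2 = 1 := by
        generalize par y.2 = δ
        fin_cases δ
        · left; rfl
        · right; rfl
      rcases h3 with h3 | h3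
      · rw [h3]; linarith [hC0 1]
      · rw [h3]; linarith [hC0 0]
    exact h1.trans (mul_le_mul_of_nonneg_right h2 (Real.exp_pos _).le)
  have hle : ∀ n : ℕ, ‖b n * ev y n * (((√(n : ℝ))⁻¹ : ℝ) : ℂ) * k.K (par y.2) (u + Real.log n)‖ ≤
      ((C 0 + C 1) * Real.exp (-η * u)) * (‖b n‖ * ((√(n : ℝ))⁻¹ * (n : ℝ) ^ (-η))) := by
    intro n
    rcases Nat.eq_zero_or_pos n with h0 | h0
    · subst h0
      rw [hb0]
      simp
    rw [norm_mul, norm_mul, norm_mul, Complex.norm_real, Real.norm_of_nonneg (by positivity)]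
    have h1 := EUL_ev_le y n
    have h2 := hCy (u + Real.log n)
    have hn0 : (0 : ℝ) < n := by exact_mod_cast h0
    have h3 : Real.exp (-η * (u + Real.log n)) = Real.exp (-η * u) * (n : ℝ) ^ (-η) := by
      rw [mul_add, Real.exp_add, Real.rpow_def_of_pos hn0]
      congr 2
      ring
    rw [h3] at h2
    calc ‖b n‖ * ‖ev y n‖ * (√(n : ℝ))⁻¹ * ‖k.K (par y.2) (u + Real.log n)‖
        ≤ ‖b n‖ * 1 * (√(n : ℝ))⁻¹ * ((C 0 + C 1) * (Real.exp (-η * u) * (n : ℝ) ^ (-η))) := by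
          gcongr
      _ = _ := by ring
  have hs2 : Summable fun n : ℕ => ((C 0 + C 1) * Real.exp (-η * u)) *
      (‖b n‖ * ((√(n : ℝ))⁻¹ * (n : ℝ) ^ (-η))) := hsum.mul_left _
  have h4 : ‖D b (k.K (par y.2)) y u‖ ≤ ∑' n : ℕ, ((C 0 + C 1) * Real.exp (-η * u)) *
      (‖b n‖ * ((√(n : ℝ))⁻¹ * (n : ℝ) ^ (-η))) := by
    unfold D
    exact tsum_of_norm_bounded hs2.hasSum hle
  rw [tsum_mul_left] at h4
  calc ‖D b (k.K (par y.2)) y u‖ ≤ _ := h4
    _ = _ := by ring

/-- SMD: transform of the smooth part -/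
theorem smooth_mellin_pr {S : Sys m} (k : Kers S) (P : ℕ) (x : Ix) {z : ℂ} (hz : 0 < z.re) :
    Integrable (fun u : ℝ => D (fun n => open Classical in if smo P n then S.a n else 0)
      (k.K (par x.2)) x u * cexp (z * u)) ∧
    ∫ u : ℝ, D (fun n => open Classical in if smo P n then S.a n else 0)
      (k.K (par x.2)) x u * cexp (z * u) = S.gam (par x.2) (1 / 2 + z) * LP S P x (1 / 2 + z) := by
  classical
  set b : ℕ → ℂ := fun n => if smo P n then S.a n else 0 with hb
  have hb0 : b 0 = 0 := by simp only [hb]; rw [if_neg (SMD_smo_zero P)]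
  have hsum : Summable fun n : ℕ => ‖b n‖ * ((√(n : ℝ))⁻¹ * (n : ℝ) ^ (-z.re)) := SMD_sum S P hz
  have hκ := k.κ_pos
  set K := k.K (par x.2) with hKdef
  have hKer : IsKer k.κ K := k.isKer _
  have hKI : Integrable (fun v : ℝ => K v * cexp (z * v)) := SMD_ker_int hKer (by linarith)
  let F : ℕ → ℝ → ℂ := fun n u =>
    b n * ev x n * (((√(n : ℝ))⁻¹ : ℝ) : ℂ) * K (u + Real.log n) * cexp (z * u)
  have hFeq : ∀ n : ℕ, n ≠ 0 → ∀ u : ℝ, F n u = (b n * ev x n * (((√(n : ℝ))⁻¹ : ℝ) : ℂ) *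
      (n : ℂ) ^ (-z)) * (K (u + Real.log n) * cexp (z * ((u + Real.log n : ℝ) : ℂ))) := by
    intro n hn u
    change b n * ev x n * (((√(n : ℝ))⁻¹ : ℝ) : ℂ) * K (u + Real.log n) * cexp (z * u) = _
    have h1 : cexp (z * u) = (n : ℂ) ^ (-z) * cexp (z * ((u + Real.log n : ℝ) : ℂ)) := by
      rw [← SMD_exp_log hn, ← Complex.exp_add]
      congr 1; push_cast; ring
    rw [h1]; ring
  have hF0 : ∀ u, F 0 u = 0 := by
    intro u
    change b 0 * ev x 0 * _ * _ * _ = 0
    rw [hb0]; ring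
  have hFi : ∀ n, Integrable (F n) := by
    intro n
    by_cases hn : n = 0
    · subst hn
      have : F 0 = fun _ => 0 := funext hF0
      rw [this]; exact integrable_zero _ _ _
    · have h1 : Integrable (fun u : ℝ => K (u + Real.log n) * cexp (z * ((u + Real.log n : ℝ) : ℂ))) :=
        hKI.comp_add_right (Real.log n)
      have h2 : F n = fun u => (b n * ev x n * (((√(n : ℝ))⁻¹ : ℝ) : ℂ) * (n : ℂ) ^ (-z)) *
          (K (u + Real.log n) * cexp (z * ((u + Real.log n : ℝ) : ℂ))) := funext (hFeq n hn)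
      rw [h2]; exact h1.const_mul _
  have hFint : ∀ n, ∫ u, F n u = S.gam (par x.2) (1 / 2 + z) *
      (if smo P n then S.a n * ev x n * (n : ℂ) ^ (-(1 / 2 + z)) else 0) := by
    intro n
    by_cases hn : n = 0
    · subst hn
      simp only [hF0, integral_zero]
      rw [if_neg (SMD_smo_zero P), mul_zero]
    · have h2 : F n = fun u => (b n * ev x n * (((√(n : ℝ))⁻¹ : ℝ) : ℂ) * (n : ℂ) ^ (-z)) *
          (K (u + Real.log n) * cexp (z * ((u + Real.log n : ℝ) : ℂ))) := funext (hFeq n hn)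
      rw [h2, integral_const_mul,
        integral_add_right_eq_self (fun v : ℝ => K v * cexp (z * (v : ℂ))) (Real.log n),
        k.mellin (par x.2) z (by linarith)]
      simp only [hb]
      by_cases hs : smo P n
      · rw [if_pos hs, if_pos hs]
        have h3 : (n : ℂ) ^ (-(1 / 2 + z)) = (((√(n : ℝ))⁻¹ : ℝ) : ℂ) * (n : ℂ) ^ (-z) := by
          have hn' : (n : ℂ) ≠ 0 := by exact_mod_cast hn
          rw [neg_add, Complex.cpow_add _ _ hn']
          congr 1
          rw [Complex.ofReal_inv, Real.sqrt_eq_rpow, Complex.ofReal_cpow (Nat.cast_nonneg n),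
            Complex.cpow_neg]
          push_cast
          rfl
        rw [h3]; ring
      · rw [if_neg hs, if_neg hs]; ring
  have hFnorm : Summable fun n => ∫ u, ‖F n u‖ := by
    refine Summable.of_nonneg_of_le (fun n => integral_nonneg fun u => norm_nonneg _) ?_
      (hsum.mul_right (∫ v : ℝ, ‖K v * cexp (z * v)‖))
    intro n
    by_cases hn : n = 0
    · subst hn
      simp only [hF0, norm_zero, integral_zero]
      exact mul_nonneg (by positivity) (integral_nonneg fun u => norm_nonneg _)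
    · have h2 : (fun u => ‖F n u‖) = fun u => ‖(b n * ev x n * (((√(n : ℝ))⁻¹ : ℝ) : ℂ) *
          (n : ℂ) ^ (-z))‖ * ‖(K (u + Real.log n) * cexp (z * ((u + Real.log n : ℝ) : ℂ)))‖ := by
        funext u; rw [hFeq n hn, norm_mul]
      rw [h2, integral_const_mul,
        integral_add_right_eq_self (fun v : ℝ => ‖K v * cexp (z * (v : ℂ))‖) (Real.log n)]
      apply mul_le_mul_of_nonneg_right _ (integral_nonneg fun u => norm_nonneg _)
      rw [norm_mul, norm_mul, norm_mul, Complex.norm_real, Real.norm_of_nonneg (by positivity)]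
      have h3 : ‖(n : ℂ) ^ (-z)‖ = (n : ℝ) ^ (-z.re) := by
        rw [Complex.norm_natCast_cpow_of_pos (Nat.pos_of_ne_zero hn), Complex.neg_re]
      have h4 := EUL_ev_le x n
      calc ‖b n‖ * ‖ev x n‖ * (√(n : ℝ))⁻¹ * ‖(n : ℂ) ^ (-z)‖
          ≤ ‖b n‖ * 1 * (√(n : ℝ))⁻¹ * (n : ℝ) ^ (-z.re) := by
            rw [h3]
            gcongr
        _ = _ := by ring
  have hDF : ∀ u : ℝ, D b K x u * cexp (z * u) = ∑' n, F n u := by
    intro u
    unfold D
    rw [← tsum_mul_right]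
  refine ⟨?_, ?_⟩
  · refine (SMD_integrable_tsum hFi hFnorm).congr ?_
    filter_upwards with u
    exact (hDF u).symm
  · have h1 := hasSum_integral_of_summable_integral_norm hFi hFnorm
    have h2 : HasSum (fun n => ∫ u, F n u)
        (S.gam (par x.2) (1 / 2 + z) * LP S P x (1 / 2 + z)) := by
      simp_rw [hFint]
      exact (EUL_cplx S P x (s := 1 / 2 + z) (by simp [hz])).mul_left _
    rw [← h2.unique h1 |>.symm]
    apply integral_congr_ae
    filter_upwards with u
    exact hDF u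

end Pool.Agent.G5
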